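import Pool.Agent.Zk22.HG.D

/-! # Orbits of finite groups -/

set_option autoImplicit false

open Finset

namespace Pool.Agent.Zk22.HG

open Pool.Agent.N326.AK

/-- the number of different vectors `g x + r g y`, `g ∈ G` -/
noncomputable def orbitCard {n : ℕ} (G : Subgroup ((Fin n → ℤ) ≃ₗ[ℤ] (Fin n → ℤ))) (r : ℚ) (x y : Fin n → ℤ) : ℕ :=
  (Set.range fun g : G => word r (g.1 x) (g.1 y)).ncard

/-- the number of different vectors `g y`, `g ∈ G` -/
noncomputable def orbitInf {n : ℕ} (G : Subgroup ((Fin n → ℤ) ≃ₗ[ℤ] (Fin n → ℤ))) (y : Fin n → ℤ) : ℕ :=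
  (Set.range fun g : G => g.1 y).ncard

/-- the largest size of an orbit of `y` or of `x + r y`, `r ∈ S` -/
noncomputable def bigOrbit {n : ℕ} (S : Finset ℚ) (G : Subgroup ((Fin n → ℤ) ≃ₗ[ℤ] (Fin n → ℤ))) (x y : Fin n → ℤ) : ℕ :=
  max (orbitInf G y) (S.sup fun r => orbitCard G r x y)

/-- orbits -/
def FE (S : Finset ℚ) (κ : ℝ) : Prop := ∀ (n : ℕ) (G : Subgroup ((Fin n → ℤ) ≃ₗ[ℤ] (Fin n → ℤ))), Finite G →
  ∀ x y : Fin n → ℤ, (orbitCard G (-1) x y : ℝ) ≤ (bigOrbit S G x y : ℝ) ^ κ

variable {S : Finset ℚ} {κ : ℝ}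

lemma ncard_range_eq {ι α β : Type*} [Fintype ι] [DecidableEq β] (f : ι → α) (g : ι → β)
    (h : ∀ i j, g i = g j ↔ f i = f j) : (univ.image g).card = (Set.range f).ncard := by
  classical
  rw [card_image_iff' univ g f fun i _ j _ => (h i j).symm, ← Set.ncard_coe_finset]
  congr 1
  ext a
  simp

/-- a good base for an orbit -/
lemma exists_good' {n : ℕ} {ι : Type*} [Fintype ι] (X Y : ι → Fin n → ℤ) (D : Finset (ℚ × ℚ)) :
    ∃ M : ℕ, ∀ d ∈ D, ∀ i j : ι,
      lin d (pt (X i) (Y i) M 1) = lin d (pt (X j) (Y j) M 1) ↔ wd (X i) (Y i) d = wd (X j) (Y j) d := by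
  classical
  obtain ⟨M, hM⟩ := exists_base ((D ×ˢ ((univ : Finset ι) ×ˢ (univ : Finset ι))).image
    fun t => wd (X t.2.1) (Y t.2.1) t.1 - wd (X t.2.2) (Y t.2.2) t.1)
  refine ⟨M, fun d hd i j => ?_⟩
  rw [lin_pt, lin_pt]
  constructor
  · intro h
    refine sub_eq_zero.1 (hM _ (mem_image.2 ⟨(d, i, j), by simp [hd], rfl⟩) ?_)
    simp only [Equiv.Perm.coe_one, id_eq] at h
    simp only [Pi.sub_apply, sub_mul, sum_sub_distrib]
    rw [h, sub_self]
  · intro h
    rw [h]

lemma e1 {n : ℕ} (r : ℚ) (x y : Fin n → ℤ) : word r x y = wd x y (1, r) := by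
  funext i
  unfold word wd
  simp

theorem ae (h : FA S κ) : FE S κ := by
  classical
  intro n G hG x y
  have : Fintype G := Fintype.ofFinite G
  obtain ⟨X, hX⟩ : ∃ X : G → Fin n → ℤ, X = fun g => g.1 x := ⟨_, rfl⟩
  obtain ⟨Y, hY⟩ : ∃ Y : G → Fin n → ℤ, Y = fun g => g.1 y := ⟨_, rfl⟩
  obtain ⟨M, hM⟩ := exists_good' X Y (dirs S)
  obtain ⟨A, hA⟩ : ∃ A : Finset (ℤ × ℤ), A = univ.image fun g : G => pt (X g) (Y g) M 1 := ⟨_, rfl⟩
  have hproj : ∀ r : ℚ, (1, r) ∈ dirs S → (proj r A).card = orbitCard G r x y := by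
    intro r hr
    rw [hA]
    unfold proj orbitCard
    rw [image_image]
    refine ncard_range_eq _ _ fun i j => ?_
    have e2 : ∀ g : G, ((fun p : ℤ × ℤ => (p.1 : ℚ) + r * (p.2 : ℚ)) ∘ fun g : G => pt (X g) (Y g) M 1) g
        = lin (1, r) (pt (X g) (Y g) M 1) := by
      intro g
      unfold lin
      simp
    rw [e2, e2, e1, e1]
    have h3 := hM _ hr i j
    rw [hX, hY] at h3 ⊢
    exact h3
  have hinf : (projInf A).card = orbitInf G y := by
    rw [hA]
    unfold projInf orbitInf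
    rw [image_image]
    refine ncard_range_eq _ _ fun i j => ?_
    have e2 : ∀ g : G, ((fun p : ℤ × ℤ => (p.2 : ℚ)) ∘ fun g : G => pt (X g) (Y g) M 1) g
        = lin (0, 1) (pt (X g) (Y g) M 1) := by
      intro g
      unfold lin
      simp
    rw [e2, e2]
    have h3 := hM (0, 1) (by simp [dirs]) i j
    rw [h3, hX, hY]
    unfold wd
    constructor
    · intro h4
      funext k
      have := congrFun h4 k
      simp only [zero_mul, zero_add, one_mul] at this
      exact_mod_cast this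
    · intro h4
      funext k
      have h5 : (i.1 y) k = (j.1 y) k := congrFun h4 k
      simp only [zero_mul, zero_add, one_mul]
      exact_mod_cast h5
  have h1 := h A
  have h2 : big S A = bigOrbit S G x y := by
    unfold big bigOrbit
    rw [hinf]
    congr 1
    refine Finset.sup_congr rfl fun r hr => hproj r ?_
    unfold dirs
    simp only [mem_insert, mem_image]
    exact Or.inr (Or.inr ⟨r, hr, rfl⟩)
  rw [hproj (-1) (by simp [dirs]), h2] at h1
  exact h1

/-- the permutations of the coordinates -/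
def permAut (n : ℕ) : Equiv.Perm (Fin n) →* ((Fin n → ℤ) ≃ₗ[ℤ] (Fin n → ℤ)) where
  toFun σ := { toFun := fun x i => x (σ⁻¹ i)
               invFun := fun x i => x (σ i)
               left_inv := fun x => by funext i; simp
               right_inv := fun x => by funext i; simp
               map_add' := fun x y => rfl
               map_smul' := fun c x => rfl }
  map_one' := by
    ext x i
    simp
  map_mul' σ τ := by
    ext x i
    simp [mul_inv_rev]

theorem eb (h : FE S κ) : FB S κ := by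
  classical
  intro n x y
  have h1 := h n (permAut n).range inferInstance x y
  have key : ∀ {α : Type} (F : ((Fin n → ℤ) ≃ₗ[ℤ] (Fin n → ℤ)) → α) (w : Fin n → ℚ),
      (∀ σ τ : Equiv.Perm (Fin n), F (permAut n σ) = F (permAut n τ) ↔ w ∘ ⇑σ⁻¹ = w ∘ ⇑τ⁻¹) →
      (Set.range fun g : (permAut n).range => F g).ncard = rearr w := by
    intro α F w hF
    have h2 : Set.range (fun g : (permAut n).range => F g) = Set.range fun σ : Equiv.Perm (Fin n) => F (permAut n σ) := by
      ext a
      constructor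
      · rintro ⟨⟨g, σ, rfl⟩, rfl⟩
        exact ⟨σ, rfl⟩
      · rintro ⟨σ, rfl⟩
        exact ⟨⟨permAut n σ, σ, rfl⟩, rfl⟩
    rw [h2, ← ncard_range_eq (fun σ : Equiv.Perm (Fin n) => F (permAut n σ)) (fun σ => w ∘ ⇑σ⁻¹)
      fun σ τ => (hF σ τ).symm]
    unfold rearr
    congr 1
    ext u
    simp only [mem_image, mem_univ, true_and]
    constructor
    · rintro ⟨σ, rfl⟩
      exact ⟨σ⁻¹, rfl⟩
    · rintro ⟨σ, rfl⟩
      exact ⟨σ⁻¹, by simp⟩
  have h2 : ∀ r, orbitCard (permAut n).range r x y = rearr (word r x y) := by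
    intro r
    unfold orbitCard
    exact key (fun g => word r (g x) (g y)) (word r x y) fun σ τ => Iff.rfl
  have h3 : orbitInf (permAut n).range y = rearr fun i => (y i : ℚ) := by
    unfold orbitInf
    refine key (fun g => g y) (fun i => (y i : ℚ)) fun σ τ => ?_
    constructor
    · intro h4
      funext i
      have := congrFun h4 i
      simp only [Function.comp_apply]
      exact_mod_cast this
    · intro h4
      funext i
      have := congrFun h4 i
      simp only [Function.comp_apply] at this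
      exact_mod_cast this
  have h4 : bigOrbit S (permAut n).range x y = bigWord S x y := by
    unfold bigOrbit bigWord
    rw [h3]
    congr 1
    exact Finset.sup_congr rfl fun r _ => h2 r
  rw [h2, h4] at h1
  exact h1

theorem equiv5 (S : Finset ℚ) {κ : ℝ} (hκ : 0 ≤ κ) :
    List.TFAE [FA S κ, FB S κ, FC S κ, FD S κ, FE S κ] := by
  tfae_have 1 → 2 := ab
  tfae_have 2 → 3 := bc
  tfae_have 3 → 1 := fun h => ca h hκ
  tfae_have 1 → 4 := ad
  tfae_have 4 → 3 := dc
  tfae_have 1 → 5 := ae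
  tfae_have 5 → 2 := eb
  tfae_finish

end Pool.Agent.Zk22.HG
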