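import Pool.Agent.N326.AK.Equiv

/-! # Words, their rearrangements, and homogeneous sets -/

set_option autoImplicit false

open Finset

namespace Pool.Agent.Zk22.HG

open Pool.Agent.N326.AK

/-- the word `x + r y` -/
def word {n : ℕ} (r : ℚ) (x y : Fin n → ℤ) : Fin n → ℚ := fun i => (x i : ℚ) + r * (y i : ℚ)

/-- the number of different rearrangements of a word -/
def rearr {n : ℕ} (w : Fin n → ℚ) : ℕ := (univ.image fun σ : Equiv.Perm (Fin n) => w ∘ σ).card

/-- the largest number of rearrangements of the words `y` and `x + r y`, `r ∈ S` -/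
def bigWord {n : ℕ} (S : Finset ℚ) (x y : Fin n → ℤ) : ℕ :=
  max (rearr fun i => (y i : ℚ)) (S.sup fun r => rearr (word r x y))

/-- the structure of `A` and the fibres of the projections is transitive -/
def Homogeneous (S : Finset ℚ) (A : Finset (ℤ × ℤ)) : Prop :=
  ∀ a ∈ A, ∀ b ∈ A, ∃ g : ℤ × ℤ → ℤ × ℤ, Set.BijOn g A A ∧ g a = b ∧ ∀ u ∈ A, ∀ v ∈ A,
    (u.2 = v.2 ↔ (g u).2 = (g v).2) ∧
    ∀ r ∈ S, ((u.1 : ℚ) + r * u.2 = v.1 + r * v.2 ↔ ((g u).1 : ℚ) + r * (g u).2 = (g v).1 + r * (g v).2)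

lemma card_image_congr {α β γ : Type*} [DecidableEq β] [DecidableEq γ] (s : Finset α) (f : α → β) (g : α → γ)
    (h : ∀ a ∈ s, ∀ b ∈ s, g a = g b → f a = f b) : (s.image f).card ≤ (s.image g).card := by
  classical
  have h1 : ∀ c ∈ s.image g, ∃ a ∈ s, g a = c := fun c hc => mem_image.1 hc
  rcases s.eq_empty_or_nonempty with h0 | ⟨a0, ha0⟩
  · simp [h0]
  have : Nonempty α := ⟨a0⟩
  choose! k hk1 hk2 using h1
  have hsub : s.image f ⊆ (s.image g).image (fun c => f (k c)) := by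
    intro b hb
    obtain ⟨a, ha, rfl⟩ := mem_image.1 hb
    refine mem_image.2 ⟨g a, mem_image_of_mem g ha, ?_⟩
    exact h _ (hk1 _ (mem_image_of_mem g ha)) _ ha (hk2 _ (mem_image_of_mem g ha))
  exact (card_le_card hsub).trans card_image_le

lemma card_image_iff' {α β γ : Type*} [DecidableEq β] [DecidableEq γ] (s : Finset α) (f : α → β) (g : α → γ)
    (h : ∀ a ∈ s, ∀ b ∈ s, g a = g b ↔ f a = f b) : (s.image f).card = (s.image g).card :=
  le_antisymm (card_image_congr s f g fun a ha b hb => (h a ha b hb).1)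
    (card_image_congr s g f fun a ha b hb => (h a ha b hb).2)

open Polynomial in
/-- a base in which finitely many vectors are not zero -/
lemma exists_base {n : ℕ} (V : Finset (Fin n → ℚ)) :
    ∃ M : ℕ, ∀ w ∈ V, ∑ i, w i * (M : ℚ) ^ (i : ℕ) = 0 → w = 0 := by
  classical
  obtain ⟨P, hP⟩ : ∃ P : (Fin n → ℚ) → Polynomial ℚ, P = fun w => ∑ i : Fin n, C (w i) * X ^ (i : ℕ) := ⟨_, rfl⟩
  have hc : ∀ w (j : Fin n), (P w).coeff j = w j := by
    intro w j
    rw [hP]
    simp only [finset_sum_coeff, coeff_C_mul, coeff_X_pow]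
    rw [Finset.sum_eq_single j]
    · simp
    · intro b _ hb
      rw [if_neg, mul_zero]
      intro h
      exact hb (Fin.ext h).symm
    · simp
  have he : ∀ w (t : ℚ), (P w).eval t = ∑ i, w i * t ^ (i : ℕ) := by
    intro w t
    rw [hP]
    simp [eval_finset_sum]
  obtain ⟨bad, hbad⟩ : ∃ bad : Finset ℚ, bad = (V.filter fun w => w ≠ 0).biUnion fun w => (P w).roots.toFinset :=
    ⟨_, rfl⟩
  have hinf : (Set.range (fun m : ℕ => (m : ℚ))).Infinite := Set.infinite_range_of_injective Nat.cast_injective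
  obtain ⟨t, ⟨M, rfl⟩, ht⟩ := hinf.exists_notMem_finset bad
  refine ⟨M, fun w hw h0 => ?_⟩
  by_contra hne
  apply ht
  rw [hbad, mem_biUnion]
  refine ⟨w, mem_filter.2 ⟨hw, hne⟩, ?_⟩
  rw [Multiset.mem_toFinset, mem_roots']
  refine ⟨fun hz => hne ?_, ?_⟩
  · funext j
    rw [← hc w j, hz]
    simp
  · rw [IsRoot, he]
    exact h0

section orbit
variable {n : ℕ} (x y : Fin n → ℤ)

/-- the points of the orbit -/
def pt (M : ℕ) (σ : Equiv.Perm (Fin n)) : ℤ × ℤ :=
  (∑ i, x (σ i) * (M : ℤ) ^ (i : ℕ), ∑ i, y (σ i) * (M : ℤ) ^ (i : ℕ))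

/-- the linear functionals -/
def lin (d : ℚ × ℚ) (p : ℤ × ℤ) : ℚ := d.1 * p.1 + d.2 * p.2

/-- the words of the directions -/
def wd (d : ℚ × ℚ) : Fin n → ℚ := fun i => d.1 * x i + d.2 * y i

lemma lin_pt (d : ℚ × ℚ) (M : ℕ) (σ : Equiv.Perm (Fin n)) :
    lin d (pt x y M σ) = ∑ i, wd x y d (σ i) * (M : ℚ) ^ (i : ℕ) := by
  unfold lin pt wd
  push_cast
  rw [mul_sum, mul_sum, ← sum_add_distrib]
  refine sum_congr rfl fun i _ => ?_
  ring

/-- a good base -/
lemma exists_good (D : Finset (ℚ × ℚ)) : ∃ M : ℕ, ∀ d ∈ D, ∀ σ τ : Equiv.Perm (Fin n),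
    lin d (pt x y M σ) = lin d (pt x y M τ) ↔ wd x y d ∘ σ = wd x y d ∘ τ := by
  classical
  obtain ⟨M, hM⟩ := exists_base ((D ×ˢ ((univ : Finset (Equiv.Perm (Fin n))) ×ˢ
    (univ : Finset (Equiv.Perm (Fin n))))).image fun t => wd x y t.1 ∘ t.2.1 - wd x y t.1 ∘ t.2.2)
  refine ⟨M, fun d hd σ τ => ?_⟩
  rw [lin_pt, lin_pt]
  constructor
  · intro h
    refine sub_eq_zero.1 (hM _ (mem_image.2 ⟨(d, σ, τ), by simp [hd], rfl⟩) ?_)
    simp only [Pi.sub_apply, Function.comp_apply, sub_mul, sum_sub_distrib]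
    rw [h, sub_self]
  · intro h
    refine sum_congr rfl fun i _ => ?_
    have := congrFun h i
    simp only [Function.comp_apply] at this
    rw [this]

/-- the directions -/
def dirs (S : Finset ℚ) : Finset (ℚ × ℚ) := insert (0, 1) (insert (1, -1) (S.image fun r => (1, r)))

/-- the orbit -/
def orb (M : ℕ) : Finset (ℤ × ℤ) := univ.image (pt x y M)

variable {x y} {M : ℕ} {S : Finset ℚ}

lemma card_proj {r : ℚ} (h : ∀ σ τ : Equiv.Perm (Fin n),
    lin (1, r) (pt x y M σ) = lin (1, r) (pt x y M τ) ↔ wd x y (1, r) ∘ σ = wd x y (1, r) ∘ τ) :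
    (proj r (orb x y M)).card = rearr (word r x y) := by
  classical
  unfold proj orb rearr
  rw [image_image]
  refine card_image_iff' _ _ _ fun σ _ τ _ => ?_
  have e1 : word r x y = wd x y (1, r) := by
    funext i
    unfold word wd
    simp
  have e2 : ∀ σ, ((fun p : ℤ × ℤ => (p.1 : ℚ) + r * (p.2 : ℚ)) ∘ pt x y M) σ = lin (1, r) (pt x y M σ) := by
    intro σ
    unfold lin
    simp
  rw [e1, e2, e2]
  exact (h σ τ).symm

lemma card_projInf (h : ∀ σ τ : Equiv.Perm (Fin n),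
    lin (0, 1) (pt x y M σ) = lin (0, 1) (pt x y M τ) ↔ wd x y (0, 1) ∘ σ = wd x y (0, 1) ∘ τ) :
    (projInf (orb x y M)).card = rearr fun i => (y i : ℚ) := by
  classical
  unfold projInf orb rearr
  rw [image_image]
  refine card_image_iff' _ _ _ fun σ _ τ _ => ?_
  have e1 : (fun i => (y i : ℚ)) = wd x y (0, 1) := by
    funext i
    unfold wd
    simp
  have e2 : ∀ σ, ((fun p : ℤ × ℤ => (p.2 : ℚ)) ∘ pt x y M) σ = lin (0, 1) (pt x y M σ) := by
    intro σ
    unfold lin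
    simp
  rw [e1, e2, e2]
  exact (h σ τ).symm

lemma big_orb (h : ∀ d ∈ dirs S, ∀ σ τ : Equiv.Perm (Fin n),
    lin d (pt x y M σ) = lin d (pt x y M τ) ↔ wd x y d ∘ σ = wd x y d ∘ τ) :
    big S (orb x y M) = bigWord S x y := by
  unfold big bigWord
  rw [card_projInf (h (0, 1) (by simp [dirs]))]
  congr 1
  refine Finset.sup_congr rfl fun r hr => ?_
  exact card_proj (h (1, r) (by
    unfold dirs
    simp only [mem_insert, mem_image]
    exact Or.inr (Or.inr ⟨r, hr, rfl⟩)))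

end orbit

end Pool.Agent.Zk22.HG
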