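import Pool.Agent.Zk22.HG.A

/-! # The equivalences -/

set_option autoImplicit false

open Finset

namespace Pool.Agent.Zk22.HG

open Pool.Agent.N326.AK

/-- all sets -/
def FA (S : Finset ℚ) (κ : ℝ) : Prop := ∀ A : Finset (ℤ × ℤ), ((proj (-1) A).card : ℝ) ≤ (big S A : ℝ) ^ κ

/-- all words -/
def FB (S : Finset ℚ) (κ : ℝ) : Prop := ∀ (n : ℕ) (x y : Fin n → ℤ),
  (rearr (word (-1) x y) : ℝ) ≤ (bigWord S x y : ℝ) ^ κ

/-- words with different differences -/
def FC (S : Finset ℚ) (κ : ℝ) : Prop := ∀ (n : ℕ) (x y : Fin n → ℤ), Function.Injective (fun i => x i - y i) →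
  (n.factorial : ℝ) ≤ (bigWord S x y : ℝ) ^ κ

/-- homogeneous sets -/
def FD (S : Finset ℚ) (κ : ℝ) : Prop := ∀ A : Finset (ℤ × ℤ),
  Set.InjOn (fun p : ℤ × ℤ => p.1 - p.2) (A : Set (ℤ × ℤ)) → Homogeneous S A → (A.card : ℝ) ≤ (big S A : ℝ) ^ κ

variable {S : Finset ℚ} {κ : ℝ}

theorem ab (h : FA S κ) : FB S κ := by
  intro n x y
  obtain ⟨M, hM⟩ := exists_good x y (dirs S)
  have h1 := h (orb x y M)
  rw [card_proj (hM (1, -1) (by simp [dirs])), big_orb hM] at h1
  exact h1

lemma rearr_inj {n : ℕ} {w : Fin n → ℚ} (hw : Function.Injective w) : rearr w = n.factorial := by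
  unfold rearr
  rw [card_image_of_injective, card_univ, Fintype.card_perm, Fintype.card_fin]
  intro σ τ h
  ext i
  have := congrFun h i
  simp only [Function.comp_apply] at this
  rw [hw this]

lemma word_inj {n : ℕ} {x y : Fin n → ℤ} (h : Function.Injective (fun i => x i - y i)) :
    Function.Injective (word (-1) x y) := by
  intro i j hij
  unfold word at hij
  apply h
  have h1 : ((x i - y i : ℤ) : ℚ) = ((x j - y j : ℤ) : ℚ) := by push_cast; linarith
  exact_mod_cast h1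

theorem bc (h : FB S κ) : FC S κ := by
  intro n x y hinj
  have h1 := h n x y
  rwa [rearr_inj (word_inj hinj)] at h1

theorem ad (h : FA S κ) : FD S κ := by
  intro A hinj _
  have h1 := h A
  have h2 : (proj (-1) A).card = A.card := by
    apply card_image_of_injOn
    intro p hp q hq hpq
    apply hinj hp hq
    simp only at hpq ⊢
    have h3 : ((p.1 - p.2 : ℤ) : ℚ) = ((q.1 - q.2 : ℤ) : ℚ) := by push_cast; linarith
    exact_mod_cast h3
  rwa [h2] at h1

/-- the orbit of a pair of words with different differences -/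
theorem dc (h : FD S κ) : FC S κ := by
  classical
  intro n x y hinj
  obtain ⟨M, hM⟩ := exists_good x y (dirs S)
  have hm1 : ((1, -1) : ℚ × ℚ) ∈ dirs S := by simp [dirs]
  have h01 : ((0, 1) : ℚ × ℚ) ∈ dirs S := by simp [dirs]
  have hr : ∀ r ∈ S, ((1, r) : ℚ × ℚ) ∈ dirs S := by
    intro r hr
    unfold dirs
    simp only [mem_insert, mem_image]
    exact Or.inr (Or.inr ⟨r, hr, rfl⟩)
  have hw : Function.Injective (wd x y (1, -1)) := by
    have e : wd x y (1, -1) = word (-1) x y := by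
      funext i
      unfold word wd
      simp
    rw [e]
    exact word_inj hinj
  -- the differences determine the permutation
  have hσ : ∀ σ τ : Equiv.Perm (Fin n), lin (1, -1) (pt x y M σ) = lin (1, -1) (pt x y M τ) → σ = τ := by
    intro σ τ h1
    have h2 := (hM (1, -1) hm1 σ τ).1 h1
    ext i
    have := congrFun h2 i
    simp only [Function.comp_apply] at this
    rw [hw this]
  have hlin : ∀ p : ℤ × ℤ, lin (1, -1) p = ((p.1 - p.2 : ℤ) : ℚ) := by
    intro p
    unfold lin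
    push_cast
    ring
  have hpt : Function.Injective (pt x y M) := by
    intro σ τ h1
    exact hσ σ τ (by rw [h1])
  have hcard : (orb x y M).card = n.factorial := by
    unfold orb
    rw [card_image_of_injective _ hpt, card_univ, Fintype.card_perm, Fintype.card_fin]
  rw [← hcard, ← big_orb hM]
  refine h _ ?_ ?_
  · intro p hp q hq hpq
    obtain ⟨σ, -, rfl⟩ := mem_image.1 (mem_coe.1 hp)
    obtain ⟨τ, -, rfl⟩ := mem_image.1 (mem_coe.1 hq)
    rw [hσ σ τ]
    rw [hlin, hlin]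
    simp only at hpq
    rw [hpq]
  · -- homogeneous
    intro a ha b hb
    obtain ⟨α, -, rfl⟩ := mem_image.1 ha
    obtain ⟨β, -, rfl⟩ := mem_image.1 hb
    obtain ⟨ρ, hρ⟩ : ∃ ρ : Equiv.Perm (Fin n), ρ = α⁻¹ * β := ⟨_, rfl⟩
    obtain ⟨dec, hdec⟩ : ∃ dec : ℤ × ℤ → Equiv.Perm (Fin n), ∀ σ, dec (pt x y M σ) = σ :=
      ⟨Function.invFun (pt x y M), Function.leftInverse_invFun hpt⟩
    refine ⟨fun p => pt x y M (dec p * ρ), ⟨?_, ?_, ?_⟩, ?_, ?_⟩
    · intro p _
      exact mem_coe.2 (mem_image_of_mem _ (mem_univ _))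
    · intro p hp q hq hpq
      obtain ⟨σ, -, rfl⟩ := mem_image.1 (mem_coe.1 hp)
      obtain ⟨τ, -, rfl⟩ := mem_image.1 (mem_coe.1 hq)
      simp only [hdec] at hpq
      rw [mul_right_cancel (hpt hpq)]
    · intro p hp
      obtain ⟨σ, -, rfl⟩ := mem_image.1 (mem_coe.1 hp)
      refine ⟨pt x y M (σ * ρ⁻¹), mem_coe.2 (mem_image_of_mem _ (mem_univ _)), ?_⟩
      simp only [hdec, inv_mul_cancel_right]
    · simp only [hdec]
      rw [hρ, mul_inv_cancel_left]
    · intro u hu v hv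
      obtain ⟨σ, -, rfl⟩ := mem_image.1 hu
      obtain ⟨τ, -, rfl⟩ := mem_image.1 hv
      simp only [hdec]
      have key : ∀ d ∈ dirs S, (lin d (pt x y M σ) = lin d (pt x y M τ) ↔
          lin d (pt x y M (σ * ρ)) = lin d (pt x y M (τ * ρ))) := by
        intro d hd
        rw [hM d hd, hM d hd]
        constructor
        · intro h1
          funext i
          exact congrFun h1 (ρ i)
        · intro h1
          funext i
          have := congrFun h1 (ρ⁻¹ i)
          simpa using this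
      refine ⟨?_, fun r hrS => ?_⟩
      · have h1 := key (0, 1) h01
        unfold lin at h1
        simp only [zero_mul, one_mul, zero_add, Int.cast_inj] at h1
        exact h1
      · have h1 := key (1, r) (hr r hrS)
        unfold lin at h1
        simp only [one_mul] at h1
        exact h1

/-- a bound without powers -/
lemma weak (h : FC S κ) (hκ : 0 ≤ κ) {P : Finset (ℤ × ℤ)}
    (hinj : ∀ p ∈ P, ∀ q ∈ P, p ≠ q → p.1 - p.2 ≠ q.1 - q.2) :
    (P.card : ℝ) ≤ Real.exp 1 * (big S P : ℝ) ^ κ := by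
  classical
  rcases Nat.eq_zero_or_pos P.card with h0 | hpos
  · rw [h0, Nat.cast_zero]
    positivity
  obtain ⟨n, hn⟩ : ∃ n : ℕ, n = P.card := ⟨_, rfl⟩
  obtain ⟨e⟩ : Nonempty (Fin n ≃ P) := ⟨(Finset.equivFinOfCardEq hn.symm).symm⟩
  obtain ⟨x, hx⟩ : ∃ x : Fin n → ℤ, x = fun i => (e i).1.1 := ⟨_, rfl⟩
  obtain ⟨y, hy⟩ : ∃ y : Fin n → ℤ, y = fun i => (e i).1.2 := ⟨_, rfl⟩
  have hinj' : Function.Injective (fun i => x i - y i) := by
    intro i j hij
    by_contra hne
    rw [hx, hy] at hij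
    refine hinj _ (e i).2 _ (e j).2 (fun h1 => hne ?_) hij
    exact e.injective (Subtype.ext h1)
  have h1 := h n x y hinj'
  have hre : ∀ (w : Fin n → ℚ) (T : Finset ℚ), (∀ i, w i ∈ T) → rearr w ≤ T.card ^ n := by
    intro w T hT
    unfold rearr
    have hsub : (univ.image fun σ : Equiv.Perm (Fin n) => w ∘ σ) ⊆ Fintype.piFinset fun _ => T := by
      intro f hf
      obtain ⟨σ, -, rfl⟩ := mem_image.1 hf
      rw [Fintype.mem_piFinset]
      intro i
      exact hT _
    refine (card_le_card hsub).trans (le_of_eq ?_)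
    rw [Fintype.card_piFinset]
    simp
  have hbig : bigWord S x y ≤ big S P ^ n := by
    unfold bigWord
    refine max_le ?_ (Finset.sup_le fun r hr => ?_)
    · refine (hre _ (projInf P) fun i => ?_).trans (Nat.pow_le_pow_left (le_max_left _ _) n)
      rw [hy]
      exact mem_image.2 ⟨(e i).1, (e i).2, rfl⟩
    · refine (hre _ (proj r P) fun i => ?_).trans (Nat.pow_le_pow_left (proj_le_big hr) n)
      rw [hx, hy]
      exact mem_image.2 ⟨(e i).1, (e i).2, rfl⟩
  have h2 : (n.factorial : ℝ) ≤ ((big S P : ℝ) ^ κ) ^ n := by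
    refine h1.trans ?_
    have h3 : (bigWord S x y : ℝ) ≤ (big S P : ℝ) ^ n := by exact_mod_cast hbig
    refine (Real.rpow_le_rpow (by positivity) h3 hκ).trans (le_of_eq ?_)
    rw [← Real.rpow_natCast, ← Real.rpow_natCast, ← Real.rpow_mul (by positivity),
      ← Real.rpow_mul (by positivity), mul_comm]
  have h3 := Real.pow_div_factorial_le_exp (n : ℝ) (by positivity) n
  rw [div_le_iff₀ (by positivity)] at h3
  have h4 : (n : ℝ) ^ n ≤ (Real.exp 1 * (big S P : ℝ) ^ κ) ^ n := by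
    rw [mul_pow, ← Real.exp_nat_mul, mul_one]
    exact h3.trans (mul_le_mul_of_nonneg_left h2 (Real.exp_pos _).le)
  rw [← hn]
  exact (pow_le_pow_iff_left₀ (by positivity) (by positivity) (by omega)).1 h4

lemma pow_lim {a b C : ℝ} (ha : 0 ≤ a) (hb : 0 ≤ b) (h : ∀ m : ℕ, a ^ m ≤ C * b ^ m) : a ≤ b := by
  by_contra hcon
  push Not at hcon
  rcases hb.eq_or_lt with h0 | h0
  · have := h 1
    rw [← h0] at this hcon
    simp only [pow_one, mul_zero] at this
    linarith
  · have h1 : 1 < a / b := by rwa [one_lt_div h0]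
    obtain ⟨m, hm⟩ := ((tendsto_pow_atTop_atTop_of_one_lt h1).eventually_gt_atTop C).exists
    have h2 := h m
    rw [div_pow, lt_div_iff₀ (by positivity)] at hm
    linarith

theorem ca (h : FC S κ) (hκ : 0 ≤ κ) : FA S κ := by
  classical
  intro A
  -- representatives of the differences
  have h1 : ∀ q ∈ proj (-1) A, ∃ p ∈ A, (p.1 : ℚ) + (-1) * (p.2 : ℚ) = q := by
    intro q hq
    rw [proj, mem_image] at hq
    obtain ⟨p, hp, h⟩ := hq
    exact ⟨p, hp, h⟩
  choose! f hf1 hf2 using h1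
  obtain ⟨A₁, hA₁⟩ : ∃ A₁ : Finset (ℤ × ℤ), A₁ = (proj (-1) A).image f := ⟨_, rfl⟩
  have hsub : A₁ ⊆ A := by
    intro p hp
    rw [hA₁, mem_image] at hp
    obtain ⟨q, hq, rfl⟩ := hp
    exact hf1 q hq
  have hcard : A₁.card = (proj (-1) A).card := by
    rw [hA₁]
    apply card_image_of_injOn
    intro q hq q' hq' h
    rw [← hf2 q hq, ← hf2 q' hq', h]
  have hinj : ∀ p ∈ A₁, ∀ q ∈ A₁, p ≠ q → p.1 - p.2 ≠ q.1 - q.2 := by
    intro p hp q hq hne heq
    rw [hA₁, mem_image] at hp hq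
    obtain ⟨u, hu, rfl⟩ := hp
    obtain ⟨v, hv, rfl⟩ := hq
    apply hne
    have e1 := hf2 u hu
    have e2 := hf2 v hv
    have e3 : ((f u).1 : ℚ) - (f u).2 = (f v).1 - (f v).2 := by exact_mod_cast heq
    have : u = v := by rw [← e1, ← e2]; linarith
    rw [this]
  obtain ⟨M, hM⟩ : ∃ M : ℕ, ∀ p ∈ A₁, |p.1| ≤ (M : ℤ) ∧ |p.2| ≤ (M : ℤ) := by
    refine ⟨A₁.sup fun p => max p.1.natAbs p.2.natAbs, fun p hp => ?_⟩
    have h2 := le_sup (f := fun p : ℤ × ℤ => max p.1.natAbs p.2.natAbs) hp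
    constructor
    · rw [Int.abs_eq_natAbs]
      exact_mod_cast (le_max_left _ _).trans h2
    · rw [Int.abs_eq_natAbs]
      exact_mod_cast (le_max_right _ _).trans h2
  obtain ⟨B, hB⟩ : ∃ B : ℕ, B = 8 * M * M + 6 * M + 2 := ⟨_, rfl⟩
  have hB1 : 8 * M * M + 6 * M + 1 ≤ B := by omega
  rw [← hcard]
  refine pow_lim (C := Real.exp 1) (by positivity) (by positivity) fun m => ?_
  have hlip := pw_lip hM hinj rfl hB1 m
  have hinjP : ∀ p ∈ pw B A₁ m, ∀ q ∈ pw B A₁ m, p ≠ q → p.1 - p.2 ≠ q.1 - q.2 := by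
    intro p hp q hq hne heq
    have h2 := hlip p hp q hq hne
    rw [heq, sub_self, abs_zero, mul_zero] at h2
    linarith [abs_nonneg (p.2 - q.2)]
  have h2 := weak h hκ hinjP
  rw [pw_card hM hinj hB1] at h2
  push_cast at h2
  refine h2.trans (mul_le_mul_of_nonneg_left ?_ (Real.exp_pos _).le)
  have h3 : ((big S (pw B A₁ m) : ℕ) : ℝ) ≤ (big S A : ℝ) ^ m := by
    have h4 := (pw_big (B := B) (A := A₁) S m).trans (Nat.pow_le_pow_left (big_mono_set S hsub) m)
    exact_mod_cast h4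
  refine (Real.rpow_le_rpow (by positivity) h3 hκ).trans (le_of_eq ?_)
  rw [← Real.rpow_natCast, ← Real.rpow_natCast, ← Real.rpow_mul (by positivity),
    ← Real.rpow_mul (by positivity), mul_comm]

/-- **The equivalences.** -/
theorem equiv (S : Finset ℚ) {κ : ℝ} (hκ : 0 ≤ κ) : List.TFAE [FA S κ, FB S κ, FC S κ, FD S κ] := by
  tfae_have 1 → 2 := ab
  tfae_have 2 → 3 := bc
  tfae_have 3 → 1 := fun h => ca h hκ
  tfae_have 1 → 4 := ad
  tfae_have 4 → 3 := dc
  tfae_finish

end Pool.Agent.Zk22.HG
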