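import Pool.Agent.Zk22.HG.B

/-! # Homogeneous sets: all the fibres of a projection have the same number of points -/

set_option autoImplicit false

open Finset

namespace Pool.Agent.Zk22.HG

open Pool.Agent.N326.AK

variable {S : Finset ℚ} {A : Finset (ℤ × ℤ)}

/-- general form -/
lemma fibres_aux {β : Type*} [DecidableEq β] (f : ℤ × ℤ → β)
    (h : ∀ a ∈ A, ∀ b ∈ A, ∃ g : ℤ × ℤ → ℤ × ℤ, Set.BijOn g A A ∧ g a = b ∧
      ∀ u ∈ A, ∀ v ∈ A, (f u = f v ↔ f (g u) = f (g v))) :
    ∃ k : ℕ, (A.card = k * (A.image f).card) ∧ ∀ t ∈ A.image f, (A.filter fun p => f p = t).card = k := by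
  classical
  rcases A.eq_empty_or_nonempty with h0 | ⟨a0, ha0⟩
  · exact ⟨0, by simp [h0], by simp [h0]⟩
  have key : ∀ a ∈ A, ∀ b ∈ A, (A.filter fun p => f p = f a).card ≤ (A.filter fun p => f p = f b).card := by
    intro a ha b hb
    obtain ⟨g, hg, hab, hf⟩ := h a ha b hb
    refine card_le_card_of_injOn g ?_ ?_
    · intro u hu
      rw [mem_coe, mem_filter] at hu ⊢
      refine ⟨hg.mapsTo hu.1, ?_⟩
      rw [← hab]
      exact (hf u hu.1 a ha).1 hu.2
    · intro u hu v hv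
      rw [mem_coe, mem_filter] at hu hv
      exact fun huv => hg.injOn (mem_coe.2 hu.1) (mem_coe.2 hv.1) huv
  have key2 : ∀ t ∈ A.image f, (A.filter fun p => f p = t).card = (A.filter fun p => f p = f a0).card := by
    intro t ht
    obtain ⟨b, hb, rfl⟩ := mem_image.1 ht
    exact le_antisymm (key b hb a0 ha0) (key a0 ha0 b hb)
  refine ⟨(A.filter fun p => f p = f a0).card, ?_, key2⟩
  rw [card_eq_sum_card_image f A, sum_congr rfl key2, sum_const, smul_eq_mul, mul_comm]

theorem fibres (h : Homogeneous S A) :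
    (∃ k : ℕ, A.card = k * (projInf A).card ∧ ∀ t ∈ projInf A, (A.filter fun p => (p.2 : ℚ) = t).card = k) ∧
    ∀ r ∈ S, ∃ k : ℕ, A.card = k * (proj r A).card ∧
      ∀ t ∈ proj r A, (A.filter fun p => (p.1 : ℚ) + r * p.2 = t).card = k := by
  constructor
  · exact fibres_aux (fun p : ℤ × ℤ => (p.2 : ℚ)) fun a ha b hb => by
      obtain ⟨g, hg, hab, hf⟩ := h a ha b hb
      refine ⟨g, hg, hab, fun u hu v hv => ?_⟩
      simp only [Int.cast_inj]
      exact (hf u hu v hv).1
  · intro r hr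
    exact fibres_aux (fun p : ℤ × ℤ => (p.1 : ℚ) + r * p.2) fun a ha b hb => by
      obtain ⟨g, hg, hab, hf⟩ := h a ha b hb
      exact ⟨g, hg, hab, fun u hu v hv => (hf u hu v hv).2 r hr⟩

end Pool.Agent.Zk22.HG
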