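import Pool.Agent.Zk22.HG.C

/-! # Sets all of whose lines are rich -/

set_option autoImplicit false

open Finset

namespace Pool.Agent.Zk22.HG

open Pool.Agent.N326.AK

/-- every fibre of the projections with slope `∞` or in `S` has at least `k` points -/
def Rich (S : Finset ℚ) (k : ℕ) (A : Finset (ℤ × ℤ)) : Prop :=
  ∀ p ∈ A, k ≤ (A.filter fun q => (q.2 : ℚ) = p.2).card ∧
    ∀ r ∈ S, k ≤ (A.filter fun q => (q.1 : ℚ) + r * q.2 = p.1 + r * p.2).card

variable {S : Finset ℚ} {A : Finset (ℤ × ℤ)}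

lemma card_fibres {β : Type*} [DecidableEq β] (f : ℤ × ℤ → β) {k : ℕ}
    (h : ∀ p ∈ A, k ≤ (A.filter fun q => f q = f p).card) : k * (A.image f).card ≤ A.card := by
  rw [card_eq_sum_card_image f A, mul_comm, ← smul_eq_mul, ← sum_const]
  refine sum_le_sum fun t ht => ?_
  obtain ⟨p, hp, rfl⟩ := mem_image.1 ht
  exact h p hp

lemma rich_big {k : ℕ} (h : Rich S k A) : k * big S A ≤ A.card := by
  unfold big
  rcases max_cases (projInf A).card (S.sup fun r => (proj r A).card) with h1 | h1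
  · rw [h1.1]
    exact card_fibres (fun q : ℤ × ℤ => (q.2 : ℚ)) fun p hp => (h p hp).1
  · rw [h1.1]
    rcases S.eq_empty_or_nonempty with h0 | h0
    · simp [h0]
    obtain ⟨r, hr, h2⟩ := exists_mem_eq_sup S h0 fun r => (proj r A).card
    rw [h2]
    exact card_fibres (fun q : ℤ × ℤ => (q.1 : ℚ) + r * q.2) fun p hp => (h p hp).2 r hr

/-- homogeneous sets are rich with the best possible number -/
lemma homogeneous_rich (h : Homogeneous S A) (hA : A.Nonempty) :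
    ∃ k : ℕ, A.card = k * big S A ∧ Rich S k A := by
  obtain ⟨⟨k0, h1, h2⟩, h3⟩ := fibres h
  have hle : ∀ k l a b : ℕ, A.card = k * a → A.card = l * b → a ≤ b → l ≤ k := by
    intro k l a b h1 h2 h3
    have hp : 0 < A.card := hA.card_pos
    have hb : 0 < b := Nat.pos_of_ne_zero fun h => by rw [h, mul_zero] at h2; omega
    by_contra hlt
    have : k * a < l * b := by
      calc k * a ≤ k * b := Nat.mul_le_mul_left _ h3
        _ < l * b := Nat.mul_lt_mul_of_pos_right (by omega) hb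
    omega
  have hmain : ∀ k : ℕ, A.card = k * big S A → Rich S k A := by
    intro k hk p hp
    constructor
    · rw [h2 (p.2 : ℚ) (mem_image_of_mem (fun q : ℤ × ℤ => (q.2 : ℚ)) hp)]
      exact hle _ _ _ _ h1 hk (le_max_left _ _)
    · intro r hr
      obtain ⟨l, h4, h5⟩ := h3 r hr
      rw [h5 ((p.1 : ℚ) + r * p.2) (mem_image_of_mem (fun q : ℤ × ℤ => (q.1 : ℚ) + r * q.2) hp)]
      refine hle _ _ _ _ h4 hk ?_
      exact (le_sup (f := fun r => (proj r A).card) hr).trans (le_max_right _ _)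
  rcases max_cases (projInf A).card (S.sup fun r => (proj r A).card) with h6 | h6
  · refine ⟨k0, ?_, hmain _ ?_⟩ <;>
    · unfold big
      rw [h6.1, ← h1]
  · rcases S.eq_empty_or_nonempty with h0 | h0
    · rw [h0, sup_empty] at h6
      simp at h6
    obtain ⟨r, hr, h7⟩ := exists_mem_eq_sup S h0 fun r => (proj r A).card
    obtain ⟨l, h4, h5⟩ := h3 r hr
    refine ⟨l, ?_, hmain _ ?_⟩ <;>
    · unfold big
      rw [h6.1, h7, ← h4]

lemma growth_of_ineq {m : ℕ} (hm : 0 < m) {k : ℕ} (hinj : Set.InjOn (fun p : ℤ × ℤ => p.1 - p.2) (A : Set (ℤ × ℤ)))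
    (h : ((proj (-1) A).card : ℝ) ≤ (big S A : ℝ) ^ (1 + 1 / (m : ℝ))) (hA : A.Nonempty) (hR : Rich S k A) :
    k ^ m ≤ A.card := by
  have hcard : (proj (-1) A).card = A.card := by
    unfold proj
    refine card_image_of_injOn fun p hp q hq hpq => hinj hp hq ?_
    have h1 : ((p.1 - p.2 : ℤ) : ℚ) = ((q.1 - q.2 : ℤ) : ℚ) := by
      have hpq' : (p.1 : ℚ) + (-1) * p.2 = q.1 + (-1) * q.2 := hpq
      push_cast
      linarith
    exact_mod_cast h1
  rw [hcard] at h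
  have h1 := rich_big hR
  have hmr : (0 : ℝ) < m := by exact_mod_cast hm
  have h2 : (A.card : ℝ) ^ m ≤ (big S A : ℝ) ^ (m + 1) := by
    have h3 := pow_le_pow_left₀ (by positivity) h m
    refine h3.trans (le_of_eq ?_)
    rw [← Real.rpow_natCast, ← Real.rpow_mul (by positivity), ← Real.rpow_natCast (big S A : ℝ) (m + 1)]
    congr 1
    push_cast
    field_simp
  have h2' : A.card ^ m ≤ big S A ^ (m + 1) := by exact_mod_cast h2
  have h3 : A.card ^ m * k ^ (m + 1) ≤ A.card ^ m * A.card := by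
    calc A.card ^ m * k ^ (m + 1) ≤ big S A ^ (m + 1) * k ^ (m + 1) := Nat.mul_le_mul_right _ h2'
      _ = (k * big S A) ^ (m + 1) := by rw [mul_pow, mul_comm]
      _ ≤ A.card ^ (m + 1) := Nat.pow_le_pow_left h1 _
      _ = A.card ^ m * A.card := pow_succ _ _
  have h4 : k ^ (m + 1) ≤ A.card := Nat.le_of_mul_le_mul_left h3 (pow_pos hA.card_pos _)
  rcases Nat.eq_zero_or_pos k with h0 | hk
  · rw [h0, zero_pow hm.ne']
    exact Nat.zero_le _
  · exact (Nat.pow_le_pow_right hk (Nat.le_succ m)).trans h4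

lemma ineq_of_growth {m : ℕ} {ε : ℝ} (hε : 0 < ε) (hm : 1 / ε ≤ m) (hH : Homogeneous S A)
    (h : ∀ k : ℕ, A.Nonempty → Rich S k A → k ^ (m + 1) ≤ A.card) :
    (A.card : ℝ) ≤ (big S A : ℝ) ^ (1 + ε) := by
  rcases A.eq_empty_or_nonempty with h0 | hA
  · rw [h0, card_empty, Nat.cast_zero]
    positivity
  obtain ⟨k, hk, hR⟩ := homogeneous_rich hH hA
  have h1 := h k hA hR
  have hkpos : 0 < k := Nat.pos_of_ne_zero fun h => by
    have := hA.card_pos
    rw [h, zero_mul] at hk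
    omega
  have hbpos : 0 < big S A := Nat.pos_of_ne_zero fun h => by
    have := hA.card_pos
    rw [h, mul_zero] at hk
    omega
  have h2 : k ^ m ≤ big S A := by
    rw [hk, pow_succ, mul_comm] at h1
    exact Nat.le_of_mul_le_mul_left h1 hkpos
  have h2r : ((k : ℝ)) ^ m ≤ big S A := by exact_mod_cast h2
  have hmpos : (0 : ℝ) < m := lt_of_lt_of_le (by positivity) hm
  have hb1 : (1 : ℝ) ≤ big S A := by exact_mod_cast hbpos
  have h3 : (k : ℝ) ≤ (big S A : ℝ) ^ ε := by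
    have h4 : (k : ℝ) = ((k : ℝ) ^ m) ^ (1 / (m : ℝ)) := by
      rw [← Real.rpow_natCast, ← Real.rpow_mul (by positivity), mul_one_div_cancel hmpos.ne', Real.rpow_one]
    rw [h4]
    refine (Real.rpow_le_rpow (by positivity) h2r (by positivity)).trans ?_
    refine Real.rpow_le_rpow_of_exponent_le hb1 ?_
    rw [div_le_iff₀ hmpos]
    rw [div_le_iff₀ hε] at hm
    linarith
  rw [hk, Nat.cast_mul, Real.rpow_add (by linarith), Real.rpow_one, mul_comm]
  exact mul_le_mul_of_nonneg_left h3 (by linarith)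

/-- **The forms of the conjecture.** -/
theorem forms : List.TFAE [
      ∀ ε : ℝ, 0 < ε → ∃ S : Finset ℚ, (-1 : ℚ) ∉ S ∧ ∀ A : Finset (ℤ × ℤ),
        ((proj (-1) A).card : ℝ) ≤ (big S A : ℝ) ^ (1 + ε),
      ∀ ε : ℝ, 0 < ε → ∃ S : Finset ℚ, (-1 : ℚ) ∉ S ∧ ∀ (n : ℕ) (x y : Fin n → ℤ),
        Function.Injective (fun i => x i - y i) → (n.factorial : ℝ) ≤ (bigWord S x y : ℝ) ^ (1 + ε),
      ∀ ε : ℝ, 0 < ε → ∃ S : Finset ℚ, (-1 : ℚ) ∉ S ∧ ∀ A : Finset (ℤ × ℤ),
        Set.InjOn (fun p : ℤ × ℤ => p.1 - p.2) (A : Set (ℤ × ℤ)) → Homogeneous S A →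
          (A.card : ℝ) ≤ (big S A : ℝ) ^ (1 + ε),
      ∀ m : ℕ, ∃ S : Finset ℚ, (-1 : ℚ) ∉ S ∧ ∀ (k : ℕ) (A : Finset (ℤ × ℤ)), A.Nonempty →
        Set.InjOn (fun p : ℤ × ℤ => p.1 - p.2) (A : Set (ℤ × ℤ)) → Rich S k A → k ^ m ≤ A.card,
      ∀ m : ℕ, ∃ S : Finset ℚ, (-1 : ℚ) ∉ S ∧ ∀ (k : ℕ) (A : Finset (ℤ × ℤ)), A.Nonempty →
        Set.InjOn (fun p : ℤ × ℤ => p.1 - p.2) (A : Set (ℤ × ℤ)) → Homogeneous S A →
          Rich S k A → k ^ m ≤ A.card] := by
  have h (S : Finset ℚ) (ε : ℝ) (hε : 0 < ε) := equiv S (κ := 1 + ε) (by linarith)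
  tfae_have 1 ↔ 2 := by
    refine forall_congr' fun ε => forall_congr' fun hε => exists_congr fun S => and_congr_right fun _ => ?_
    exact (h S ε hε).out 0 2
  tfae_have 1 ↔ 3 := by
    refine forall_congr' fun ε => forall_congr' fun hε => exists_congr fun S => and_congr_right fun _ => ?_
    exact (h S ε hε).out 0 3
  tfae_have 1 → 4 := by
    intro h1 m
    rcases Nat.eq_zero_or_pos m with h0 | hm
    · refine ⟨∅, notMem_empty _, fun k A hA _ _ => ?_⟩
      rw [h0, pow_zero]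
      exact hA.card_pos
    · obtain ⟨S, hS, h2⟩ := h1 (1 / (m : ℝ)) (by positivity)
      exact ⟨S, hS, fun k A hA hinj hR => growth_of_ineq hm hinj (h2 A) hA hR⟩
  tfae_have 4 → 5 := by
    intro h1 m
    obtain ⟨S, hS, h2⟩ := h1 m
    exact ⟨S, hS, fun k A hA hinj _ hR => h2 k A hA hinj hR⟩
  tfae_have 5 → 3 := by
    intro h1 ε hε
    obtain ⟨m, hm⟩ := exists_nat_ge (1 / ε)
    obtain ⟨S, hS, h2⟩ := h1 (m + 1)
    exact ⟨S, hS, fun A hinj hH => ineq_of_growth hε hm hH fun k hA hR => h2 k A hA hinj hH hR⟩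
  tfae_finish

end Pool.Agent.Zk22.HG
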